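import Mathlib

set_option autoImplicit false

open Filter Set Topology

namespace Pool.Agent.Results.MP_850d3d_an.VarisolventNotClosed

/-- `g` is locally solvent of degree `m` at `a₀`. -/
def LocSolvent {A Q : Type*} (g : A → Q → ℝ) (m : ℕ) (a₀ : A) : Prop :=
  ∀ T : Finset Q, T.card = m → ∀ ε : ℝ, 0 < ε → ∃ δ : ℝ, 0 < δ ∧ ∀ γ : Q → ℝ,
    (∀ t ∈ T, |g a₀ t - γ t| < δ) → ∃ a : A, (∀ t ∈ T, g a t = γ t) ∧ ∀ t : Q, |g a t - g a₀ t| < ε

/-- `g` is varisolvent: there is a non-constant degree function `p` with values in `{1,…,|Q|}` such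
that `g` is locally solvent of degree `p a` at each `a`, and `g a - g b` has at most `p a - 1` zeros
for all `b ≠ a`. -/
def Varisolvent {A Q : Type*} [Fintype Q] (g : A → Q → ℝ) : Prop :=
  ∃ p : A → ℕ, (∃ a b, p a ≠ p b) ∧ (∀ a, 1 ≤ p a ∧ p a ≤ Fintype.card Q) ∧
    (∀ a, LocSolvent g (p a) a) ∧
    ∀ a b, a ≠ b → ∀ Z : Finset Q, (∀ t ∈ Z, g a t - g b t = 0) → Z.card ≤ p a - 1

lemma lower {A Q : Type*} [Fintype Q] (g : A → Q → ℝ) (p : A → ℕ)
    (h1 : ∀ a, 1 ≤ p a ∧ p a ≤ Fintype.card Q) (h2 : ∀ a, LocSolvent g (p a) a)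
    (h3 : ∀ a b, a ≠ b → ∀ Z : Finset Q, (∀ t ∈ Z, g a t - g b t = 0) → Z.card ≤ p a - 1)
    (a : A) : ∃ η : ℝ, 0 < η ∧ ∀ b, (∀ t, |g b t - g a t| < η) → p a ≤ p b := by
  classical
  obtain ⟨T, _, hT⟩ := Finset.exists_subset_card_eq (s := (Finset.univ : Finset Q))
    (n := p a) (by rw [Finset.card_univ]; exact (h1 a).2)
  obtain ⟨δ, hδ, hS⟩ := h2 a T hT 1 one_pos
  refine ⟨δ / 2, by positivity, ?_⟩
  intro b hb
  by_contra hlt
  push Not at hlt
  obtain ⟨T', hT'T, hT'⟩ := Finset.exists_subset_card_eq (s := T) (n := p b) (by omega)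
  obtain ⟨j, hjT, hj⟩ : ∃ j ∈ T, j ∉ T' := by
    by_contra hcon
    push Not at hcon
    have := Finset.card_le_card (show T ⊆ T' from hcon)
    omega
  obtain ⟨c, hc, _⟩ := hS (fun t => if t = j then g b t + δ / 4 else g b t) (by
    intro t _
    have h := hb t
    rw [abs_sub_comm] at h
    split_ifs
    · rw [abs_lt] at h ⊢
      constructor <;> linarith [h.1, h.2]
    · linarith)
  have hbc : b ≠ c := by
    rintro rfl
    have := hc j hjT
    simp at this
    linarith
  have := h3 b c hbc T' (by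
    intro t ht
    have htj : t ≠ j := fun h => hj (h ▸ ht)
    have := hc t (hT'T ht)
    simp only [htj, if_false] at this
    linarith)
  have := (h1 b).1
  omega

lemma upper {A Q : Type*} [Fintype Q] (g : A → Q → ℝ) (p : A → ℕ)
    (h1 : ∀ a, 1 ≤ p a ∧ p a ≤ Fintype.card Q) (h2 : ∀ a, LocSolvent g (p a) a)
    (h3 : ∀ a b, a ≠ b → ∀ Z : Finset Q, (∀ t ∈ Z, g a t - g b t = 0) → Z.card ≤ p a - 1)
    (hcl : IsClosed (range g)) (a : A) :
    ∃ η : ℝ, 0 < η ∧ ∀ b, (∀ t, |g b t - g a t| < η) → p b ≤ p a := by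
  classical
  set K : Set (Q → ℝ) := range g ∩ Metric.sphere (g a) 1 with hK
  have hKc : IsCompact K := (isCompact_sphere (g a) 1).inter_left hcl
  have hT : ∀ T : Finset Q, T.card = p a → ∃ κ : ℝ, 0 < κ ∧ ∀ u ∈ K, ∃ t ∈ T, κ ≤ |u t - g a t| := by
    intro T hTc
    by_cases hne : K.Nonempty
    · have hcont : ContinuousOn (fun u : Q → ℝ => ∑ t ∈ T, |u t - g a t|) K := by
        apply Continuous.continuousOn
        fun_prop
      obtain ⟨u0, hu0, hmin⟩ := hKc.exists_isMinOn hne hcont
      have hpos : 0 < ∑ t ∈ T, |u0 t - g a t| := by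
        rw [Finset.sum_pos_iff_of_nonneg (fun t _ => abs_nonneg _)]
        by_contra hcon
        push Not at hcon
        obtain ⟨c, hc⟩ := hu0.1
        have hca : a ≠ c := by
          rintro rfl
          have := hu0.2
          rw [← hc] at this
          simp at this
        have := h3 a c hca T (by
          intro t ht
          have h := hcon t ht
          have h' : |u0 t - g a t| = 0 := le_antisymm h (abs_nonneg _)
          rw [abs_eq_zero] at h'
          rw [hc]; linarith)
        have := (h1 a).1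
        omega
      have hTne : 0 < T.card := by have := (h1 a).1; omega
      have hTr : (0:ℝ) < T.card := by exact_mod_cast hTne
      refine ⟨(∑ t ∈ T, |u0 t - g a t|) / T.card, by positivity, ?_⟩
      intro u hu
      by_contra hcon
      push Not at hcon
      have h5 : ∑ t ∈ T, |u t - g a t| < ∑ t ∈ T, (∑ t ∈ T, |u0 t - g a t|) / T.card := by
        apply Finset.sum_lt_sum_of_nonempty (Finset.card_pos.mp hTne)
        exact hcon
      rw [Finset.sum_const, nsmul_eq_mul, mul_div_cancel₀ _ hTr.ne'] at h5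
      have h6 := hmin hu
      simp only [mem_ofPred_eq] at h6
      linarith
    · refine ⟨1, one_pos, ?_⟩
      intro u hu
      exact absurd ⟨u, hu⟩ hne
  have hall : ∀ T : Finset Q, ∃ κ : ℝ, 0 < κ ∧ (T.card = p a → ∀ u ∈ K, ∃ t ∈ T, κ ≤ |u t - g a t|) := by
    intro T
    by_cases h : T.card = p a
    · obtain ⟨κ, h4, h5⟩ := hT T h
      exact ⟨κ, h4, fun _ => h5⟩
    · exact ⟨1, one_pos, fun h' => absurd h' h⟩
  choose κ hκ0 hκ using hall
  obtain ⟨T₁, _, hmin⟩ := Finset.exists_min_image (Finset.univ : Finset (Finset Q)) κ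
    Finset.univ_nonempty
  set η : ℝ := min (κ T₁) 1 with hη
  have hη0 : 0 < η := lt_min (hκ0 T₁) one_pos
  have hη1 : η ≤ 1 := min_le_right _ _
  have hηκ : ∀ T, η ≤ κ T := fun T => (min_le_left _ _).trans (hmin T (Finset.mem_univ T))
  refine ⟨η, hη0, ?_⟩
  intro b hb
  by_contra hlt
  push Not at hlt
  -- choose T0 and t1
  obtain ⟨T0, _, hT0⟩ := Finset.exists_subset_card_eq (s := (Finset.univ : Finset Q))
    (n := p b - 1) (by rw [Finset.card_univ]; have := (h1 b).2; omega)
  obtain ⟨t1, ht1⟩ : ∃ t1, t1 ∉ T0 := by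
    by_contra hcon
    push Not at hcon
    have : T0 = Finset.univ := Finset.eq_univ_iff_forall.mpr hcon
    rw [this, Finset.card_univ] at hT0
    have := (h1 b).2
    have := (h1 b).1
    omega
  set KA : Set (Q → ℝ) := (range g ∩ Metric.closedBall (g a) 1) ∩
    {u | ∀ t ∈ T0, u t = g b t} with hKA
  have hKAc : IsCompact KA := by
    apply IsCompact.inter_right
    · exact (isCompact_closedBall (g a) 1).inter_left hcl
    · have : {u : Q → ℝ | ∀ t ∈ T0, u t = g b t} = ⋂ t ∈ T0, {u | u t = g b t} := by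
        ext u; simp
      rw [this]
      apply isClosed_biInter
      intro t _
      exact isClosed_eq (continuous_apply t) continuous_const
  have hbKA : g b ∈ KA := by
    refine ⟨⟨⟨b, rfl⟩, ?_⟩, fun t _ => rfl⟩
    rw [Metric.mem_closedBall, dist_pi_le_iff one_pos.le]
    intro t
    rw [Real.dist_eq]
    exact (hb t).le.trans hη1
  obtain ⟨u, hu, hmax⟩ := hKAc.exists_isMaxOn ⟨g b, hbKA⟩ (f := fun u => u t1)
    (continuous_apply t1).continuousOn
  obtain ⟨⟨⟨c, rfl⟩, hcball⟩, hcT0⟩ := hu
  have hpc : p b ≤ p c := by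
    by_cases hcb : c = b
    · rw [hcb]
    · have := h3 c b hcb T0 (by
        intro t ht
        rw [hcT0 t ht, sub_self])
      have := (h1 b).1
      have := (h1 c).1
      omega
  have hsph : dist (g c) (g a) = 1 := by
    rw [Metric.mem_closedBall] at hcball
    by_contra hne
    have hlt1 : dist (g c) (g a) < 1 := lt_of_le_of_ne hcball hne
    obtain ⟨T, hTsup, hTcard⟩ := Finset.exists_superset_card_eq (s := insert t1 T0) (n := p c)
      (by rw [Finset.card_insert_of_notMem ht1]; have := (h1 b).1; omega) (h1 c).2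
    obtain ⟨δ, hδ, hS⟩ := h2 c T hTcard (1 - dist (g c) (g a)) (by linarith)
    obtain ⟨d, hd1, hd2⟩ := hS (fun t => if t = t1 then g c t + δ / 2 else g c t) (by
      intro t _
      split_ifs
      · rw [abs_lt]; constructor <;> linarith
      · simpa using hδ)
    have hdKA : g d ∈ KA := by
      refine ⟨⟨⟨d, rfl⟩, ?_⟩, ?_⟩
      · rw [Metric.mem_closedBall]
        have h7 : dist (g d) (g c) ≤ 1 - dist (g c) (g a) := by
          rw [dist_pi_le_iff (by linarith)]
          intro t
          rw [Real.dist_eq]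
          exact (hd2 t).le
        have := dist_triangle (g d) (g c) (g a)
        linarith
      · intro t ht
        have htt : t ≠ t1 := fun h => ht1 (h ▸ ht)
        have := hd1 t (hTsup (Finset.mem_insert_of_mem ht))
        simp only [htt, if_false] at this
        rw [this, hcT0 t ht]
    have h8 := hmax hdKA
    have h9 := hd1 t1 (hTsup (Finset.mem_insert_self _ _))
    simp only [if_true] at h9
    simp only [mem_ofPred_eq] at h8
    linarith
  obtain ⟨T, hTT0, hTc⟩ := Finset.exists_subset_card_eq (s := T0) (n := p a) (by omega)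
  obtain ⟨t, ht, hκt⟩ := hκ T hTc (g c) ⟨⟨c, rfl⟩, hsph⟩
  rw [hcT0 t (hTT0 ht)] at hκt
  have := hηκ T
  have := hb t
  linarith

/-- If `g` is varisolvent on the finite set `Q` and the surface `G = {g a : a ∈ A}` is connected,
then `G` is not closed. -/
theorem result {A Q : Type*} [Fintype Q] (g : A → Q → ℝ) (hg : Varisolvent g)
    (hG : IsConnected (range g)) : ¬ IsClosed (range g) := by
  classical
  intro hcl
  obtain ⟨p, ⟨a, b, hab⟩, h1, h2, h3⟩ := hg
  have hinj : Function.Injective g := by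
    intro x y hxy
    by_contra hne
    have := h3 x y hne Finset.univ (by intro t _; rw [hxy]; simp)
    rw [Finset.card_univ] at this
    have := (h1 x).1
    have := (h1 x).2
    omega
  have hloc : ∀ x, ∃ η : ℝ, 0 < η ∧ ∀ y, (∀ t, |g y t - g x t| < η) → p y = p x := by
    intro x
    obtain ⟨η1, h4, h5⟩ := lower g p h1 h2 h3 x
    obtain ⟨η2, h6, h7⟩ := upper g p h1 h2 h3 hcl x
    refine ⟨min η1 η2, lt_min h4 h6, ?_⟩
    intro y hy
    exact le_antisymm (h7 y (fun t => (hy t).trans_le (min_le_right _ _)))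
      (h5 y (fun t => (hy t).trans_le (min_le_left _ _)))
  set F : (Q → ℝ) → ℕ := Function.extend g p (fun _ => 0) with hF
  have hFg : ∀ x, F (g x) = p x := fun x => hinj.extend_apply p _ x
  have hcont : ContinuousOn F (range g) := by
    rintro _ ⟨x, rfl⟩
    obtain ⟨η, hη, h4⟩ := hloc x
    have : ∀ᶠ u in 𝓝[range g] (g x), F u = F (g x) := by
      rw [eventually_nhdsWithin_iff, Metric.eventually_nhds_iff]
      refine ⟨η, hη, ?_⟩
      rintro _ hu ⟨y, rfl⟩
      rw [hFg, hFg]
      apply h4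
      intro t
      have := dist_le_pi_dist (g y) (g x) t
      rw [Real.dist_eq] at this
      linarith
    exact (continuousWithinAt_const (b := F (g x))).congr_of_eventuallyEq this rfl
  have := hG.isPreconnected.constant hcont (mem_range_self a) (mem_range_self b)
  rw [hFg, hFg] at this
  exact hab this

end Pool.Agent.Results.MP_850d3d_an.VarisolventNotClosed
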